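import Mathlib
import Pool.Agent.TH881.RK.DefsH2

/-! The counting inequality modulo a prime. -/

set_option autoImplicit false

namespace Pool.Agent.TH473.J5136

open Finset Filter Topology
open Pool.Agent.TH881
open Pool.Agent.TH881.RG
open Pool.Agent.TH881.RQ
open Pool.Agent.H373R2.T7
open Pool.Agent.TH881.RK

theorem Qn_empty (m p : ℕ) [NeZero p] : Qn m p (∅ : Finset (ZMod p)) = 0 := by
  classical
  unfold Qn
  rw [Finset.card_eq_zero, Finset.filter_eq_empty_iff]
  rintro x - ⟨b, hb, -⟩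
  exact absurd hb (Finset.notMem_empty b)

theorem Qn_insert (m p : ℕ) [NeZero p] [DecidableEq (ZMod p)] (L : Finset (ZMod p)) (b : ZMod p) :
    Qn m p (insert b L) = Qn m p L + Dn m p L b := by
  classical
  unfold Qn Dn
  rw [← Finset.card_union_of_disjoint]
  · congr 1
    ext x
    simp only [Finset.mem_filter, Finset.mem_univ, true_and, Finset.mem_union, Finset.mem_insert]
    constructor
    · rintro ⟨c, hc | hc, hx⟩
      · subst hc
        by_cases h : ∃ d ∈ L, ∀ j, x j + d ≠ 0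
        · exact Or.inl h
        · refine Or.inr ⟨hx, fun d hd => ?_⟩
          by_contra h'
          exact h ⟨d, hd, fun j hj => h' ⟨j, hj⟩⟩
      · exact Or.inl ⟨c, hc, hx⟩
    · rintro (⟨c, hc, hx⟩ | ⟨hx, -⟩)
      · exact ⟨c, Or.inr hc, hx⟩
      · exact ⟨b, Or.inl rfl, hx⟩
  · rw [Finset.disjoint_left]
    intro x hx hx'
    simp only [Finset.mem_filter, Finset.mem_univ, true_and] at hx hx'
    obtain ⟨c, hc, h1⟩ := hx
    obtain ⟨j, hj⟩ := hx'.2 c hc
    exact h1 j hj

theorem Qn_eq (h3 : StDC) (m p : ℕ) [NeZero p] (hp : p.Prime) (L : Finset (ZMod p)) :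
    Qn m p L = ∑ j ∈ range L.card, dd m (p - 1) j := by
  classical
  induction L using Finset.induction_on with
  | empty => rw [Qn_empty]; simp
  | insert b L hb ih =>
    rw [Qn_insert, ih, h3 m p hp L b hb, Finset.card_insert_of_notMem hb, Finset.sum_range_succ]

theorem card_Un (p : ℕ) [NeZero p] : (Un p).card = p - 1 := by
  classical
  unfold Un
  have h : (univ.filter (fun b : ZMod p => b ≠ 0)) = univ.erase 0 := by
    ext b
    simp
  rw [h, Finset.card_erase_of_mem (Finset.mem_univ _), Finset.card_univ, ZMod.card]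

/-- the abstract recursion -/
theorem key (h1 : StSc) {D : ℕ → ℝ} {q : ℝ} {n : ℕ} (hq : 0 < q) (hq1 : q < 1)
    (hD : ∀ j, 0 ≤ D j) (hr : ∀ j, 1 ≤ n → 2 ≤ n → j + 1 ≤ n → D (j + 1) ≤ q * D j)
    {k : ℕ} (hk : 1 ≤ k) {j : ℕ} (hkj : k ≤ j) (hjn : j ≤ n) :
    (∑ i ∈ range j, D i) * ((k : ℝ) / j) ^ (Real.logb 2 (1 + q)) ≤ ∑ i ∈ range k, D i := by
  have hS : ∀ l, 0 ≤ ∑ i ∈ range l, D i := fun l => Finset.sum_nonneg fun i _ => hD i
  have hT : ∀ l, 1 ≤ l → 0 < ∑ i ∈ range l, q ^ i := fun l hl =>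
    Finset.sum_pos (fun i _ => pow_pos hq i) (Finset.nonempty_range_iff.2 (by omega))
  -- `D k T_k ≤ q ^ k S_k`
  have hP : 2 ≤ n → ∀ l, l ≤ n →
      D l * ∑ i ∈ range l, q ^ i ≤ q ^ l * ∑ i ∈ range l, D i := by
    intro hn l
    induction l with
    | zero => intro _; simp
    | succ l ih =>
      intro hl
      have h2 := ih (by omega)
      have h3 := hr l (by omega) hn hl
      rw [Finset.sum_range_succ, Finset.sum_range_succ]
      have h4 : 0 ≤ ∑ i ∈ range l, q ^ i + q ^ l := by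
        have : 0 ≤ ∑ i ∈ range l, q ^ i := Finset.sum_nonneg fun i _ => (pow_pos hq i).le
        have := pow_pos hq l
        linarith
      calc D (l + 1) * (∑ i ∈ range l, q ^ i + q ^ l)
          ≤ (q * D l) * (∑ i ∈ range l, q ^ i + q ^ l) := mul_le_mul_of_nonneg_right h3 h4
        _ = q * (D l * ∑ i ∈ range l, q ^ i + q ^ l * D l) := by ring
        _ ≤ q * (q ^ l * ∑ i ∈ range l, D i + q ^ l * D l) := by
            apply mul_le_mul_of_nonneg_left _ hq.le
            linarith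
        _ = q ^ (l + 1) * (∑ i ∈ range l, D i + D l) := by ring
  induction j, hkj using Nat.le_induction with
  | base =>
    have hk0 : (k : ℝ) ≠ 0 := by positivity
    rw [div_self hk0, Real.one_rpow, mul_one]
  | succ j hkj ih =>
    have hj1 : 1 ≤ j := hk.trans hkj
    have hn2 : 2 ≤ n := by omega
    have h2 := ih (by omega)
    have hTj := hT j hj1
    have hjpos : (0 : ℝ) < j := by exact_mod_cast hj1
    have h3 : (∑ i ∈ range (j + 1), D i) ≤
        (∑ i ∈ range j, D i) * (((j : ℝ) + 1) / j) ^ (Real.logb 2 (1 + q)) := by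
      have h4 := h1 q j hq hq1 hj1
      have h5 := hP hn2 j (by omega)
      have h6 : (∑ i ∈ range (j + 1), D i) * ∑ i ∈ range j, q ^ i ≤
          ((∑ i ∈ range j, D i) * (((j : ℝ) + 1) / j) ^ (Real.logb 2 (1 + q))) *
            ∑ i ∈ range j, q ^ i := by
        calc (∑ i ∈ range (j + 1), D i) * ∑ i ∈ range j, q ^ i
            = (∑ i ∈ range j, D i) * ∑ i ∈ range j, q ^ i + D j * ∑ i ∈ range j, q ^ i := by
              rw [Finset.sum_range_succ]; ring
          _ ≤ (∑ i ∈ range j, D i) * ∑ i ∈ range j, q ^ i +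
              q ^ j * ∑ i ∈ range j, D i := by linarith
          _ = (∑ i ∈ range j, D i) * ∑ i ∈ range (j + 1), q ^ i := by
              rw [Finset.sum_range_succ (fun i => q ^ i)]; ring
          _ ≤ (∑ i ∈ range j, D i) * ((((j : ℝ) + 1) / j) ^ (Real.logb 2 (1 + q)) *
                ∑ i ∈ range j, q ^ i) := mul_le_mul_of_nonneg_left h4 (hS j)
          _ = _ := by ring
      exact le_of_mul_le_mul_right h6 hTj
    have h7 : (0 : ℝ) ≤ ((k : ℝ) / ((j + 1 : ℕ) : ℝ)) ^ (Real.logb 2 (1 + q)) := by positivity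
    calc (∑ i ∈ range (j + 1), D i) * ((k : ℝ) / ((j + 1 : ℕ) : ℝ)) ^ (Real.logb 2 (1 + q))
        ≤ ((∑ i ∈ range j, D i) * (((j : ℝ) + 1) / j) ^ (Real.logb 2 (1 + q))) *
            ((k : ℝ) / ((j + 1 : ℕ) : ℝ)) ^ (Real.logb 2 (1 + q)) :=
          mul_le_mul_of_nonneg_right h3 h7
      _ = (∑ i ∈ range j, D i) * ((k : ℝ) / j) ^ (Real.logb 2 (1 + q)) := by
          rw [mul_assoc, ← Real.mul_rpow (by positivity) (by positivity)]
          congr 2
          push_cast
          field_simp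
      _ ≤ _ := h2

theorem stQn_of (m : ℕ) (hm : 1 ≤ m) (h1 : StSc) (h2 : StDR) (h3 : StDC) : StQn m := by
  intro p _ hp L hL
  have hp2 := hp.two_le
  obtain ⟨q, hqd⟩ : ∃ q : ℝ, q = 1 - (1 / 2) ^ m := ⟨_, rfl⟩
  have hpow : ((1 : ℝ) / 2) ^ m ≤ 1 / 2 := by
    calc ((1 : ℝ) / 2) ^ m ≤ (1 / 2) ^ 1 :=
          pow_le_pow_of_le_one (by norm_num) (by norm_num) hm
      _ = 1 / 2 := pow_one _
  have hpow0 : (0 : ℝ) < (1 / 2) ^ m := by positivity
  have hq : 0 < q := by rw [hqd]; linarith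
  have hq1 : q < 1 := by rw [hqd]; linarith
  have halp : alp m = Real.logb 2 (1 + q) := by
    unfold alp
    congr 1
    rw [hqd]
    ring
  have halp0 : 0 < alp m := by
    rw [halp]
    exact Real.logb_pos (by norm_num) (by linarith)
  rw [Qn_eq h3 m p hp L, Qn_eq h3 m p hp (Un p), card_Un]
  have hLc : L.card ≤ p - 1 := by
    rw [← card_Un p]
    exact Finset.card_le_card hL
  rcases Nat.eq_zero_or_pos L.card with h0 | h0
  · rw [h0, Nat.cast_zero, zero_div, Real.zero_rpow halp0.ne', mul_zero]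
    exact Nat.cast_nonneg _
  · have h4 := key h1 (D := fun j => (dd m (p - 1) j : ℝ)) (n := p - 1) hq hq1
      (fun j => Nat.cast_nonneg _) (fun j hn1 hn2 hj => ?_) (k := L.card) h0 hLc le_rfl
    · rw [halp]
      push_cast at h4 ⊢
      exact h4
    · refine (h2 m (p - 1) j hj).trans ?_
      apply mul_le_mul_of_nonneg_right _ (Nat.cast_nonneg _)
      rw [hqd]
      have h5 : (1 : ℝ) / 2 ≤ (((p - 1 : ℕ) : ℝ) - 1) / ((p - 1 : ℕ) : ℝ) := by
        have h6 : (2 : ℝ) ≤ ((p - 1 : ℕ) : ℝ) := by exact_mod_cast hn2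
        rw [div_le_div_iff₀ (by norm_num) (by linarith)]
        linarith
      have h7 := pow_le_pow_left₀ (by norm_num : (0 : ℝ) ≤ 1 / 2) h5 m
      linarith

end Pool.Agent.TH473.J5136
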